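import Pool.Agent.helper43.DHB.SpecB

set_option autoImplicit false

open Filter Topology MeasureTheory
open scoped commutatorElement

namespace Pool.Agent.helper90.DH

open Pool.Agent.helper64.D2

theorem bSLG_NMmono (a b : ℝ) (C : ℝ → ℝ) (h : NM a C) (hab : a ≤ b) : NM b C :=
  ⟨h.cd, fun x => (h.sl x).trans hab, fun x => (h.ds x).trans hab⟩

theorem bSLG_pow4 (ρ : ℕ) (h : 16 ≤ ρ) : ρ ^ 4 ≤ 2 ^ ρ := by
  induction ρ, h using Nat.le_induction with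
  | base => norm_num
  | succ n hn ih =>
    have h1 : (n + 1) ^ 4 ≤ 2 * n ^ 4 := by
      have h2 : 16 * n ^ 3 ≤ n ^ 4 := by
        have : n ^ 4 = n * n ^ 3 := by ring
        rw [this]; exact Nat.mul_le_mul_right _ hn
      have h3 : (n + 1) ^ 4 = n ^ 4 + 4 * n ^ 3 + 6 * n ^ 2 + 4 * n + 1 := by ring
      have h4 : n ^ 2 ≤ n ^ 3 := Nat.pow_le_pow_right (by omega) (by norm_num)
      have h5 : n ≤ n ^ 3 := by
        calc n = n ^ 1 := (pow_one n).symm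
          _ ≤ n ^ 3 := Nat.pow_le_pow_right (by omega) (by norm_num)
      have h6 : 1 ≤ n ^ 3 := Nat.one_le_pow _ _ (by omega)
      omega
    calc (n + 1) ^ 4 ≤ 2 * n ^ 4 := h1
      _ ≤ 2 * 2 ^ n := Nat.mul_le_mul_left _ ih
      _ = 2 ^ (n + 1) := by ring

/-- the number bound -/
theorem bSLG_num (c0 ρ s : ℕ) (h1 : 40 + 25 * c0 ≤ ρ) (h2 : ρ ^ 2 ≤ s) :
    ((2 : ℝ) ^ (s + s / 8) + 1) * ((ρ ^ 4 : ℕ) * (3 * (12 / (2 ^ (s + s / 8) * (1 / 2 ^ (s + c0))) + 1 / ((2 ^ (s + s / 4) : ℕ) : ℝ)))) ^ 25 ≤ 1 / 10 := by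
  set e := s / 8 with he
  have hs8 : s ≤ 8 * e + 7 := by omega
  have hpow : (2 : ℝ) ^ (s + e) * (1 / 2 ^ (s + c0)) = 2 ^ e / 2 ^ c0 := by
    rw [pow_add, pow_add]; field_simp
  have hN : (1 : ℝ) / ((2 ^ (s + s / 4) : ℕ) : ℝ) ≤ 2 ^ c0 / 2 ^ e := by
    push_cast
    rw [div_le_div_iff₀ (by positivity) (by positivity), one_mul]
    have : (2 : ℝ) ^ e ≤ 2 ^ (s + s / 4) := pow_le_pow_right₀ (by norm_num) (by omega)
    have h3 : (1 : ℝ) ≤ 2 ^ c0 := one_le_pow₀ (by norm_num)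
    nlinarith [pow_pos (show (0 : ℝ) < 2 by norm_num) (s + s / 4)]
  have h4 : (12 : ℝ) / (2 ^ (s + e) * (1 / 2 ^ (s + c0))) = 12 * (2 ^ c0 / 2 ^ e) := by
    rw [hpow]; field_simp
  have hρ4 : ((ρ ^ 4 : ℕ) : ℝ) ≤ 2 ^ ρ := by exact_mod_cast bSLG_pow4 ρ (by omega)
  have h5 : ((ρ ^ 4 : ℕ) : ℝ) * (3 * (12 / (2 ^ (s + e) * (1 / 2 ^ (s + c0))) + 1 / ((2 ^ (s + s / 4) : ℕ) : ℝ))) ≤ 2 ^ (ρ + 6 + c0) / 2 ^ e := by
    rw [h4]
    have h6 : 3 * (12 * ((2 : ℝ) ^ c0 / 2 ^ e) + 1 / ((2 ^ (s + s / 4) : ℕ) : ℝ)) ≤ 39 * (2 ^ c0 / 2 ^ e) := by linarith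
    have h7 : (0 : ℝ) ≤ 2 ^ c0 / 2 ^ e := by positivity
    calc ((ρ ^ 4 : ℕ) : ℝ) * (3 * (12 * ((2 : ℝ) ^ c0 / 2 ^ e) + 1 / ((2 ^ (s + s / 4) : ℕ) : ℝ)))
        ≤ ((ρ ^ 4 : ℕ) : ℝ) * (39 * (2 ^ c0 / 2 ^ e)) := mul_le_mul_of_nonneg_left h6 (by positivity)
      _ ≤ 2 ^ ρ * (64 * (2 ^ c0 / 2 ^ e)) := by
          apply mul_le_mul hρ4 _ (by positivity) (by positivity)
          nlinarith
      _ = 2 ^ (ρ + 6 + c0) / 2 ^ e := by
          rw [pow_add, pow_add]; ring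
  have h0 : (0 : ℝ) ≤ ((ρ ^ 4 : ℕ) : ℝ) * (3 * (12 / (2 ^ (s + e) * (1 / 2 ^ (s + c0))) + 1 / ((2 ^ (s + s / 4) : ℕ) : ℝ))) := by positivity
  have h8 : (((ρ ^ 4 : ℕ) : ℝ) * (3 * (12 / (2 ^ (s + e) * (1 / 2 ^ (s + c0))) + 1 / ((2 ^ (s + s / 4) : ℕ) : ℝ)))) ^ 25 ≤ 2 ^ (25 * (ρ + 6 + c0)) / 2 ^ (25 * e) := by
    calc _ ≤ ((2 : ℝ) ^ (ρ + 6 + c0) / 2 ^ e) ^ 25 := pow_le_pow_left₀ h0 h5 25
      _ = _ := by rw [div_pow, ← pow_mul, ← pow_mul, Nat.mul_comm _ 25, Nat.mul_comm e 25]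
  have h9 : (2 : ℝ) ^ (s + e) + 1 ≤ 2 ^ (9 * e + 8) := by
    have h10 : (2 : ℝ) ^ (s + e) ≤ 2 ^ (9 * e + 7) := pow_le_pow_right₀ (by norm_num) (by omega)
    have h11 : (1 : ℝ) ≤ 2 ^ (9 * e + 7) := one_le_pow₀ (by norm_num)
    have h12 : (2 : ℝ) ^ (9 * e + 8) = 2 * 2 ^ (9 * e + 7) := by rw [show 9 * e + 8 = (9 * e + 7) + 1 by ring, pow_succ]; ring
    linarith
  have h13 : 12 + (9 * e + 8) + 25 * (ρ + 6 + c0) ≤ 25 * e := by
    have h14 : (40 + 25 * c0) * ρ ≤ ρ ^ 2 := by rw [pow_two]; exact Nat.mul_le_mul_right _ h1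
    have h15 : c0 ≤ c0 * ρ := Nat.le_mul_of_pos_right _ (by omega)
    have h16 : (40 + 25 * c0) * ρ = 40 * ρ + 25 * (c0 * ρ) := by ring
    have h17 : 40 ≤ ρ := by omega
    generalize c0 * ρ = z at *
    generalize ρ ^ 2 = r2 at *
    omega
  calc ((2 : ℝ) ^ (s + e) + 1) * (((ρ ^ 4 : ℕ) : ℝ) * (3 * (12 / (2 ^ (s + e) * (1 / 2 ^ (s + c0))) + 1 / ((2 ^ (s + s / 4) : ℕ) : ℝ)))) ^ 25
      ≤ 2 ^ (9 * e + 8) * (2 ^ (25 * (ρ + 6 + c0)) / 2 ^ (25 * e)) := by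
        apply mul_le_mul h9 h8 (by positivity) (by positivity)
    _ ≤ 1 / 2 ^ 12 := by
        rw [← mul_div_assoc, div_le_div_iff₀ (by positivity) (by positivity), ← pow_add, one_mul, ← pow_add]
        exact pow_le_pow_right₀ (by norm_num) (by omega)
    _ ≤ 1 / 10 := by norm_num

theorem bSLG (hSL2 : bSL2_stmt) (hSJB : bSJB_stmt) (hPRB : bPRB_stmt) (hNMF : bNMF_stmt) (hWDF : bWDF_stmt) : bSLG_stmt := by
  refine ⟨24, ?_⟩
  intro β hβ w0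
  obtain ⟨Kb, hKb1, hKb⟩ := hWDF β hβ
  obtain ⟨n0, hn0⟩ := pow_unbounded_of_one_lt (100 * Kb) (one_lt_two)
  set c0 := 3 * w0 * 2 ^ w0 with hc0
  obtain ⟨ρ0, hρ0⟩ := hSJB w0 (n0 + 7 + (40 + 25 * c0))
  refine ⟨ρ0, ?_⟩
  intro ρ hρ t P E ht hPE
  obtain ⟨hM, hs, hu, -, -, hamp, -⟩ := hρ0 ρ hρ t
  set s := sj (ρ ^ 2) t with hsdef
  set u := bu w0 (ρ ^ 2) t with hudef
  have hρ40 : 40 + 25 * c0 ≤ ρ := by omega
  have hsj1 : sj (ρ ^ 2) (t + 1) = s + s / 4 := rfl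
  have hampt : ∀ φ, amp w0 (ρ ^ 2) t φ = s + 3 * w0 * φ := by
    intro φ
    unfold amp
    rw [if_neg (by omega)]
  have hs24 : 24 ≤ s := by
    have : 40 * 40 ≤ ρ ^ 2 := by rw [pow_two]; exact Nat.mul_le_mul (by omega) (by omega)
    omega
  set τ : ℕ → ℝ := fun i => 1 / 2 ^ amp w0 (ρ ^ 2) t (i % 2 ^ w0) with hτ
  set τ1 : ℝ := 1 / 2 ^ (s + c0) with hτ1
  have hmod : ∀ i : ℕ, i % 2 ^ w0 < 2 ^ w0 := fun i => Nat.mod_lt _ (by positivity)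
  have hτb : ∀ i, τ1 ≤ τ i ∧ τ i ≤ 1 / 2 ^ s := by
    intro i
    constructor
    · apply one_div_le_one_div_of_le (by positivity)
      apply pow_le_pow_right₀ (by norm_num)
      rw [hampt]
      have : 3 * w0 * (i % 2 ^ w0) ≤ 3 * w0 * 2 ^ w0 := Nat.mul_le_mul_left _ (hmod i).le
      omega
    · apply one_div_le_one_div_of_le (by positivity)
      apply pow_le_pow_right₀ (by norm_num)
      rw [hampt]; omega
  have hτ0 : ∀ i, 0 ≤ τ i := fun i => by positivity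
  have hτu : ∀ i, Kb * τ i * 2 ^ u ≤ 1 / 100 := by
    intro i
    have h1 := (hamp (i % 2 ^ w0) (hmod i)).1
    have h2 : (2 : ℝ) ^ (u + n0) ≤ 2 ^ amp w0 (ρ ^ 2) t (i % 2 ^ w0) := pow_le_pow_right₀ (by norm_num) (by omega)
    have h3 : τ i ≤ 1 / 2 ^ (u + n0) := one_div_le_one_div_of_le (by positivity) h2
    calc Kb * τ i * 2 ^ u ≤ Kb * (1 / 2 ^ (u + n0)) * 2 ^ u := by
          apply mul_le_mul_of_nonneg_right _ (by positivity)
          exact mul_le_mul_of_nonneg_left h3 (by linarith)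
      _ = Kb / 2 ^ n0 := by rw [pow_add]; field_simp
      _ ≤ 1 / 100 := by
          rw [div_le_div_iff₀ (by positivity) (by norm_num)]
          linarith
  have hNM : ∀ i, NM (1 / 100) (ev (P i)) ∧ NM (1 / 100) (ev (E i)) := by
    intro i
    exact ⟨bSLG_NMmono _ _ _ (hNMF.1 (P i) (1 / 1000) (by norm_num) (hPE i).1).1 (by norm_num),
      bSLG_NMmono _ _ _ (hNMF.1 (E i) (1 / 1000) (by norm_num) (hPE i).2).1 (by norm_num)⟩
  set N : ℕ := 2 ^ sj (ρ ^ 2) (t + 1) with hN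
  have hN0 : 0 < N := by positivity
  set σ := s + s / 8 with hσ
  -- slopes
  have hslope : ∀ (w : Fin (ρ ^ 4) × Fin (2 ^ u) → Fin N) (i : ℕ) (x y : ℝ),
      |CMf β u N τ (fun i => ev (P i)) (fun i => ev (E i)) (dg w) i x - CMf β u N τ (fun i => ev (P i)) (fun i => ev (E i)) (dg w) i y| ≤ 2 * |x - y| := by
    intro w i x y
    have hdg : ∀ l, dg w i l ≤ N := by
      intro l
      unfold dg
      split_ifs with h
      · exact (w _).2.le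
      · exact Nat.zero_le _
    obtain ⟨hcd, -, hder, -, -⟩ := hKb u N (τ i) (dg w i) (by omega) hN0 (hτ0 i) hdg
    have hW : |Wd β u N (τ i) (dg w i) x - Wd β u N (τ i) (dg w i) y| ≤ (1 / 100) * |x - y| := by
      have := Convex.norm_image_sub_le_of_norm_deriv_le (f := Wd β u N (τ i) (dg w i)) (C := 1 / 100) (s := Set.univ) (x := y) (y := x)
        (fun z _ => (hcd.differentiable (by norm_num)) z) (fun z _ => by
          rw [Real.norm_eq_abs]; exact (hder z).trans (hτu i)) convex_univ (Set.mem_univ _) (Set.mem_univ _)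
      simpa [Real.norm_eq_abs] using this
    have hE := (hNMF.2.2.1 _ _ (by norm_num) (hNM i).2).2.2.2 x y
    have hP := (hNMF.2.2.1 _ _ (by norm_num) (hNM i).1).2.2.2 (ev (E i) x + Wd β u N (τ i) (dg w i) x) (ev (E i) y + Wd β u N (τ i) (dg w i) y)
    have h1 : |(ev (E i) x + Wd β u N (τ i) (dg w i) x) - (ev (E i) y + Wd β u N (τ i) (dg w i) y)| ≤ |ev (E i) x - ev (E i) y| + |Wd β u N (τ i) (dg w i) x - Wd β u N (τ i) (dg w i) y| := by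
      have : (ev (E i) x + Wd β u N (τ i) (dg w i) x) - (ev (E i) y + Wd β u N (τ i) (dg w i) y) = (ev (E i) x - ev (E i) y) + (Wd β u N (τ i) (dg w i) x - Wd β u N (τ i) (dg w i) y) := by ring
      rw [this]; exact abs_add_le _ _
    have h2 : |(ev (E i) x + Wd β u N (τ i) (dg w i) x) - (ev (E i) y + Wd β u N (τ i) (dg w i) y)| ≤ (102 / 100) * |x - y| := by
      have := hE.2
      linarith
    show |ev (P i) (ev (E i) x + Wd β u N (τ i) (dg w i) x) - ev (P i) (ev (E i) y + Wd β u N (τ i) (dg w i) y)| ≤ 2 * |x - y|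
    have h3 := hP.2
    have h4 : (0 : ℝ) ≤ |x - y| := abs_nonneg _
    nlinarith
  set yy : ℕ → ℝ := fun j => max (1 / 6) (min (5 / 6) ((j : ℝ) / 2 ^ σ)) with hyy
  have hyyI : ∀ j, yy j ∈ Set.Icc (1 / 6 : ℝ) (5 / 6) := fun j => ⟨le_max_left _ _, max_le (by norm_num) (min_le_left _ _)⟩
  have hsub : {w : Fin (ρ ^ 4) × Fin (2 ^ u) → Fin N | ¬ ∀ y ∈ Set.Icc (1 / 6 : ℝ) (5 / 6),
      (nearf (ρ ^ 4) (CMf β u N τ (fun i => ev (P i)) (fun i => ev (E i)) (dg w)) s (1 / 2 ^ (s + s / 8)) y).card ≤ 24} ⊆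
      ⋃ j ∈ Finset.range (2 ^ σ + 1), {w : Fin (ρ ^ 4) × Fin (2 ^ u) → Fin N | 24 < (nearf (ρ ^ 4) (CMf β u N τ (fun i => ev (P i)) (fun i => ev (E i)) (dg w)) s (3 / 2 ^ σ) (yy j)).card} := by
    intro w hw
    simp only [Set.mem_setOf_eq, not_forall, not_le] at hw
    obtain ⟨y, hy, hcard⟩ := hw
    have hy0 : 0 ≤ 2 ^ σ * y := by have := hy.1; positivity
    set j := ⌊2 ^ σ * y⌋₊ with hj
    have hj1 : (j : ℝ) ≤ 2 ^ σ * y := Nat.floor_le hy0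
    have hj2 : 2 ^ σ * y < j + 1 := Nat.lt_floor_add_one _
    have h2σ : (0 : ℝ) < 2 ^ σ := by positivity
    have hjy : (j : ℝ) / 2 ^ σ ≤ y := by rw [div_le_iff₀ h2σ]; linarith
    have hjy2 : y ≤ (j : ℝ) / 2 ^ σ + 1 / 2 ^ σ := by rw [← add_div, le_div_iff₀ h2σ]; linarith
    have hd : |y - yy j| ≤ 1 / 2 ^ σ := by
      have h1 : min (5 / 6) ((j : ℝ) / 2 ^ σ) = (j : ℝ) / 2 ^ σ := min_eq_right (hjy.trans hy.2)
      simp only [hyy, h1]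
      rw [abs_le]
      have h3 : (0 : ℝ) ≤ 1 / 2 ^ σ := by positivity
      rcases le_total (1 / 6) ((j : ℝ) / 2 ^ σ) with h | h
      · rw [max_eq_right h]; constructor <;> linarith
      · rw [max_eq_left h]; constructor <;> linarith [hy.1]
    have hjr : j ∈ Finset.range (2 ^ σ + 1) := by
      rw [Finset.mem_range, Nat.lt_succ_iff]
      have : (j : ℝ) ≤ 2 ^ σ := by nlinarith [hy.2]
      exact_mod_cast this
    refine Set.mem_biUnion (show j ∈ (Finset.range (2 ^ σ + 1) : Finset ℕ) from hjr) ?_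
    show 24 < _
    refine lt_of_lt_of_le hcard (Finset.card_le_card ?_)
    intro i hi
    simp only [nearf, Finset.mem_filter] at hi ⊢
    refine ⟨hi.1, ?_⟩
    obtain ⟨k, hk⟩ := hi.2
    refine ⟨k, ?_⟩
    have h5 := hslope w i (yy j) y
    have h6 : |yy j - y| ≤ 1 / 2 ^ σ := by rw [abs_sub_comm]; exact hd
    have h7 : (3 : ℝ) / 2 ^ σ = 1 / 2 ^ σ + 2 * (1 / 2 ^ σ) := by ring
    rw [h7]
    calc _ = |(CMf β u N τ (fun i => ev (P i)) (fun i => ev (E i)) (dg w) i y - (k : ℝ) / 2 ^ s) + (CMf β u N τ (fun i => ev (P i)) (fun i => ev (E i)) (dg w) i (yy j) - CMf β u N τ (fun i => ev (P i)) (fun i => ev (E i)) (dg w) i y)| := by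
          congr 1; ring
      _ ≤ |CMf β u N τ (fun i => ev (P i)) (fun i => ev (E i)) (dg w) i y - (k : ℝ) / 2 ^ s| + |CMf β u N τ (fun i => ev (P i)) (fun i => ev (E i)) (dg w) i (yy j) - CMf β u N τ (fun i => ev (P i)) (fun i => ev (E i)) (dg w) i y| := abs_add_le _ _
      _ ≤ 1 / 2 ^ σ + 2 * (1 / 2 ^ σ) := by
          apply add_le_add hk
          linarith
  have hone : ∀ j ∈ Finset.range (2 ^ σ + 1), bpr {w : Fin (ρ ^ 4) × Fin (2 ^ u) → Fin N | 24 < (nearf (ρ ^ 4) (CMf β u N τ (fun i => ev (P i)) (fun i => ev (E i)) (dg w)) s (3 / 2 ^ σ) (yy j)).card} ≤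
      ((ρ ^ 4 : ℕ) * (3 * (12 / (2 ^ σ * τ1) + 1 / (N : ℝ)))) ^ 25 := by
    intro j _
    have := hSL2 β hβ (ρ ^ 4) u N s σ 24 (fun i => ev (P i)) (fun i => ev (E i)) τ τ1 (yy j) (fun i => (hNM i).1) (by positivity) hτb (by omega) (by omega) hN0 (hyyI j)
    exact this
  refine (hPRB.1 _ _ _ hsub).trans ?_
  refine (hPRB.2.2.2.1 _ _ _ _).trans ?_
  refine (Finset.sum_le_sum hone).trans ?_
  rw [Finset.sum_const, Finset.card_range, nsmul_eq_mul]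
  have hfin := bSLG_num c0 ρ s hρ40 hs
  have hcast : ((2 ^ σ + 1 : ℕ) : ℝ) = (2 : ℝ) ^ (s + s / 8) + 1 := by push_cast; rfl
  rw [hcast]
  exact hfin

end Pool.Agent.helper90.DH
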